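import Pool.Agent.Lib.MP_28303a_al.NT.EX.Defs
import Pool.Agent.Lib.MP_28303a_al.NT.ER71.Iter

/-! # Row ITX: the negative K-groups of groups acting on several trees -/

set_option autoImplicit false
set_option linter.unusedSectionVars false
set_option linter.unusedVariables false

namespace Pool.Agent.NegK.NT.EX

universe u

open Pool.Agent.NegK.TW Pool.Agent.NegK.TT Pool.Agent.NegK.NT.ER

namespace X60

section

variable {F : RFun.{u}} {k : Type u} [Ring k]

theorem hom_hom {G₁ G₂ G₃ : Type u} [Group G₁] [Group G₂] [Group G₃] (f : G₁ →* G₂) (g : G₂ →* G₃)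
    (z : F.obj (MonoidAlgebra k G₁)) :
    F.hom (mdr k g) (F.hom (mdr k f) z) = F.hom (mdr k (g.comp f)) z := by
  rw [← mdr_comp_mdr, F.hom_comp]
  rfl

theorem hom_id' {G₁ : Type u} [Group G₁] (f : G₁ →* G₁) (hf : ∀ g, f g = g)
    (z : F.obj (MonoidAlgebra k G₁)) : F.hom (mdr k f) z = z := by
  have h1 : mdr k f = RingHom.id (MonoidAlgebra k G₁) := by
    obtain rfl : f = MonoidHom.id G₁ := MonoidHom.ext hf
    refine MonoidAlgebra.ringHom_ext (fun r => ?_) fun g => ?_
    · show MonoidAlgebra.mapDomainRingHom k (MonoidHom.id G₁) (MonoidAlgebra.single 1 r) = _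
      rw [MonoidAlgebra.mapDomainRingHom_apply, MonoidAlgebra.mapDomain_single]
      rfl
    · show MonoidAlgebra.mapDomainRingHom k (MonoidHom.id G₁) (MonoidAlgebra.single g 1) = _
      rw [MonoidAlgebra.mapDomainRingHom_apply, MonoidAlgebra.mapDomain_single]
      rfl
  rw [h1, F.hom_id]
  rfl

variable {Γ : Type u} [Group Γ]

theorem gn_ext {X : Type u} [MulAction Γ X] (h : GN F k Γ X) {G : Type u} [AddCommGroup G]
    {f g : F.obj (MonoidAlgebra k Γ) →+ G}
    (hfg : ∀ (x : X) z, f (F.hom (mdr k (MulAction.stabilizer Γ x).subtype) z) =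
      g (F.hom (mdr k (MulAction.stabilizer Γ x).subtype) z)) : f = g := by
  have h1 : (⊤ : AddSubgroup (F.obj (MonoidAlgebra k Γ))) ≤ (f - g).ker := by
    rw [← h]
    refine iSup_le fun x => ?_
    rintro _ ⟨z, rfl⟩
    rw [AddMonoidHom.mem_ker, AddMonoidHom.sub_apply, hfg, sub_self]
  refine AddMonoidHom.ext fun z => ?_
  have h2 := h1 (AddSubgroup.mem_top z)
  rw [AddMonoidHom.mem_ker, AddMonoidHom.sub_apply] at h2
  exact sub_eq_zero.1 h2

/-- Conjugation. -/
def cj {X : Type u} [MulAction Γ X] (g : Γ) (x y : X) (h : y = g • x) :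
    MulAction.stabilizer Γ x →* MulAction.stabilizer Γ y where
  toFun a := ⟨g * a * g⁻¹, by
    rw [MulAction.mem_stabilizer_iff, h, mul_smul, inv_smul_smul, mul_smul]
    exact congrArg (fun z => g • z) (MulAction.mem_stabilizer_iff.1 a.2)⟩
  map_one' := Subtype.ext (by simp)
  map_mul' a b := Subtype.ext (by simp [mul_assoc])

variable (F k Γ) in
/-- Generation and the universal property without relations. -/
def PP (X : Type u) [MulAction Γ X] : Prop := GN F k Γ X ∧ UP F k Γ X (fun _ _ => False)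

theorem PP.congr {X : Type u} {i₁ i₂ : MulAction Γ X} (hi : ∀ (g : Γ) (x : X),
    i₁.toSMul.smul g x = i₂.toSMul.smul g x) (h : @PP F k _ Γ _ X i₁) : @PP F k _ Γ _ X i₂ := by
  have h1 : i₁ = i₂ := MulAction.ext (funext fun g => funext fun x => hi g x)
  rw [← h1]
  exact h

/-- One point. -/
theorem PP.point {X : Type u} [MulAction Γ X] [Subsingleton X] (x₀ : X) : PP F k Γ X := by
  let κ : Γ →* MulAction.stabilizer Γ x₀ :=
    { toFun := fun g => ⟨g, MulAction.mem_stabilizer_iff.2 (Subsingleton.elim _ _)⟩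
      map_one' := rfl
      map_mul' := fun _ _ => rfl }
  constructor
  · rw [GN, eq_top_iff]
    refine le_trans ?_ (le_iSup _ x₀)
    intro z _
    refine ⟨F.hom (mdr k κ) z, ?_⟩
    rw [hom_hom]
    exact hom_id' _ (fun g => rfl) z
  · intro G _ Φ _
    refine ⟨(Φ.φ x₀).comp (F.hom (mdr k κ)), fun x z => ?_⟩
    have h0 : x₀ = (1 : Γ) • x := Subsingleton.elim _ _
    show Φ.φ x₀ (F.hom (mdr k κ) (F.hom (mdr k (MulAction.stabilizer Γ x).subtype) z)) = Φ.φ x z
    rw [hom_hom]
    refine Φ.conj 1 x x₀ _ h0 (fun a => ?_) z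
    rw [one_mul, inv_one, mul_one]
    rfl

section step

variable {V Z X : Type u} [MulAction Γ V] [MulAction Γ Z] [MulAction Γ X] (e : X ≃ V × Z)
  (he : ∀ (g : Γ) (x : X), e (g • x) = (g • (e x).1, g • (e x).2))

include he in
theorem smul_symm (g : Γ) (v : V) (z : Z) : g • e.symm (v, z) = e.symm (g • v, g • z) := by
  rw [Equiv.eq_symm_apply, he, Equiv.apply_symm_apply]

/-- The stabilizer of a point of the fibre. -/
def io (v : V) (z : Z) : MulAction.stabilizer (MulAction.stabilizer Γ v) z →*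
    MulAction.stabilizer Γ (e.symm (v, z)) where
  toFun a := ⟨a.1.1, by
    rw [MulAction.mem_stabilizer_iff, smul_symm e he, MulAction.mem_stabilizer_iff.1 a.1.2]
    have h : (a.1.1 : Γ) • z = z := MulAction.mem_stabilizer_iff.1 a.2
    rw [h]⟩
  map_one' := rfl
  map_mul' _ _ := rfl

include he in
/-- **The composition of two actions.** -/
theorem PP.step (hV : PP F k Γ V) (hZ : ∀ v : V, PP F k (MulAction.stabilizer Γ v) Z) :
    PP F k Γ X := by
  constructor
  · rw [GN, eq_top_iff, ← hV.1]
    refine iSup_le fun v => ?_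
    rw [AddMonoidHom.range_eq_map, ← (hZ v).1, AddSubgroup.map_iSup]
    refine iSup_le fun z => ?_
    refine le_trans ?_ (le_iSup _ (e.symm (v, z)))
    rintro _ ⟨_, ⟨u, rfl⟩, rfl⟩
    refine ⟨F.hom (mdr k (io e he v z)) u, ?_⟩
    rw [hom_hom, hom_hom]
    rfl
  · intro G _ Φ _
    let Φv : ∀ v : V, Fam F k (MulAction.stabilizer Γ v) Z G := fun v =>
      { φ := fun z => (Φ.φ (e.symm (v, z))).comp (F.hom (mdr k (io e he v z)))
        conj := fun g x y c hy hc u => by
          show Φ.φ (e.symm (v, y)) (F.hom (mdr k (io e he v y)) (F.hom (mdr k c) u)) =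
            Φ.φ (e.symm (v, x)) (F.hom (mdr k (io e he v x)) u)
          have h0 : e.symm (v, y) = (g : Γ) • e.symm (v, x) := by
            rw [smul_symm e he, MulAction.mem_stabilizer_iff.1 g.2, hy]
            rfl
          rw [← Φ.conj (g : Γ) _ _ (cj (g : Γ) _ _ h0) h0 (fun a => rfl)
            (F.hom (mdr k (io e he v x)) u), hom_hom, hom_hom]
          have h1 : (io e he v y).comp c = (cj (g : Γ) _ _ h0).comp (io e he v x) :=
            MonoidHom.ext fun a => Subtype.ext
              (congrArg (fun w : MulAction.stabilizer Γ v => (w : Γ)) (hc a))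
          rw [h1] }
    have h1 : ∀ v, ∃ Ψ : F.obj (MonoidAlgebra k (MulAction.stabilizer Γ v)) →+ G, ∀ z u,
        Ψ (F.hom (mdr k (MulAction.stabilizer (MulAction.stabilizer Γ v) z).subtype) u) =
          (Φv v).φ z u := fun v => (hZ v).2 G (Φv v) fun _ _ h => h.elim
    choose Ψ hΨ using h1
    obtain ⟨Ψ₀, hΨ₀⟩ := hV.2 G
      { φ := Ψ
        conj := fun g x y c hy hc u => by
          refine DFunLike.congr_fun (gn_ext (hZ x).1
            (f := (Ψ y).comp (F.hom (mdr k c))) (g := Ψ x) fun z u => ?_) u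
          let c' : MulAction.stabilizer (MulAction.stabilizer Γ x) z →*
              MulAction.stabilizer (MulAction.stabilizer Γ y) (g • z) :=
            { toFun := fun a => ⟨c a.1, by
                rw [MulAction.mem_stabilizer_iff]
                show (c a.1 : Γ) • g • z = g • z
                have h2 : (a.1.1 : Γ) • z = z := MulAction.mem_stabilizer_iff.1 a.2
                rw [hc, mul_smul, inv_smul_smul, mul_smul]
                exact congrArg (fun z => g • z) h2⟩
              map_one' := Subtype.ext (map_one c)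
              map_mul' := fun a b => Subtype.ext (map_mul c a.1 b.1) }
          show Ψ y (F.hom (mdr k c) (F.hom (mdr k
            (MulAction.stabilizer (MulAction.stabilizer Γ x) z).subtype) u)) = _
          have h2 : c.comp (MulAction.stabilizer (MulAction.stabilizer Γ x) z).subtype =
              (MulAction.stabilizer (MulAction.stabilizer Γ y) (g • z)).subtype.comp c' := rfl
          rw [hom_hom, h2, ← hom_hom, hΨ, hΨ]
          show Φ.φ (e.symm (y, g • z)) (F.hom (mdr k (io e he y (g • z))) (F.hom (mdr k c') u)) =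
            Φ.φ (e.symm (x, z)) (F.hom (mdr k (io e he x z)) u)
          have h0 : e.symm (y, g • z) = g • e.symm (x, z) := by
            rw [smul_symm e he, hy]
          rw [← Φ.conj g _ _ (cj g _ _ h0) h0 (fun a => rfl)
            (F.hom (mdr k (io e he x z)) u), hom_hom, hom_hom]
          have h1 : (io e he y (g • z)).comp c' = (cj g _ _ h0).comp (io e he x z) :=
            MonoidHom.ext fun a => Subtype.ext (hc a.1)
          rw [h1] } fun _ _ h => h.elim
    refine ⟨Ψ₀, fun x u => ?_⟩
    let κ : MulAction.stabilizer Γ x →*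
        MulAction.stabilizer (MulAction.stabilizer Γ (e x).1) (e x).2 :=
      { toFun := fun a => ⟨⟨a.1, by
            have h2 := he a.1 x
            rw [MulAction.mem_stabilizer_iff.1 a.2] at h2
            exact MulAction.mem_stabilizer_iff.2 (congrArg Prod.fst h2).symm⟩, by
            have h2 := he a.1 x
            rw [MulAction.mem_stabilizer_iff.1 a.2] at h2
            exact MulAction.mem_stabilizer_iff.2 (congrArg Prod.snd h2).symm⟩
        map_one' := rfl
        map_mul' := fun _ _ => rfl }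
    have h2 : (MulAction.stabilizer Γ x).subtype = (MulAction.stabilizer Γ (e x).1).subtype.comp
        ((MulAction.stabilizer (MulAction.stabilizer Γ (e x).1) (e x).2).subtype.comp κ) := rfl
    rw [h2, ← hom_hom, hΨ₀, ← hom_hom]
    show Ψ (e x).1 _ = _
    rw [hΨ]
    show Φ.φ (e.symm ((e x).1, (e x).2)) (F.hom (mdr k (io e he (e x).1 (e x).2))
      (F.hom (mdr k κ) u)) = Φ.φ x u
    rw [hom_hom]
    refine Φ.conj 1 x _ _ ?_ (fun a => ?_) u
    · rw [one_smul]
      exact e.symm_apply_apply x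
    · rw [one_mul, inv_one, mul_one]
      rfl

end step

end

/-- One tree. -/
theorem one (hU : UnivStatement.{u}) (hB : BasStatement.{u}) (hK : KneStatement.{u})
    (hR : RelStatement.{u}) {Γ : Type u} [Group Γ] (Y : Trees Γ) (j : Fin Y.m)
    (h : ∀ (v : ∀ i, Y.V i) (w : Y.V j), (Y.G j).Adj (v j) w →
      InRC (Y.st v ⊓ MulAction.stabilizer Γ w : Subgroup Γ)) (n : ℕ) (k : Type u) [Ring k]
    (hk : RegularRing k) : PP (KNegFun (n + 1)) k Γ (Y.V j) := by
  obtain ⟨h1, h2⟩ := hB Γ (Y.V j) (Y.G j).Adj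
    (fun k _ hk => ⟨hR Γ Y j h k hk, hU Γ Y j h k hk⟩) (n + 1) k hk
  refine ⟨h1, fun G _ Φ _ => h2 G Φ fun x y hxy z => ?_⟩
  have h3 := hK Γ Y j h n k hk x y hxy
  have h4 : z = 0 := @Subsingleton.elim _ h3 z 0
  rw [h4, map_zero, map_zero, map_zero, map_zero]

/-- The equivalence for the induction. -/
def eqv {m : ℕ} {V : Fin m → Type u} {I : Finset (Fin m)} {j : Fin m} (hj : j ∈ I) :
    (∀ i : I, V i) ≃ V j × (∀ i : (I.erase j : Finset (Fin m)), V i) where
  toFun x := (x ⟨j, hj⟩, fun i => x ⟨i.1, Finset.mem_of_mem_erase i.2⟩)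
  invFun p i := if h : i.1 = j then h ▸ p.1 else p.2 ⟨i.1, Finset.mem_erase.2 ⟨h, i.2⟩⟩
  left_inv x := by
    funext i
    by_cases h : i.1 = j
    · obtain ⟨i, hi⟩ := i
      dsimp only at h
      subst h
      simp
    · dsimp only
      rw [dif_neg h]
  right_inv p := by
    refine Prod.ext ?_ (funext fun i => ?_)
    · simp
    · dsimp only
      rw [dif_neg (Finset.ne_of_mem_erase i.2)]

theorem all (hU : UnivStatement.{u}) (hB : BasStatement.{u}) (hK : KneStatement.{u})
    (hR : RelStatement.{u}) (c : ℕ) : ∀ (Γ : Type u) [Group Γ] (Y : Trees Γ)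
    (I : Finset (Fin Y.m)), I.card = c → ER71.EdgeR Y I → ∀ (n : ℕ) (k : Type u) [Ring k],
    RegularRing k → PP (KNegFun (n + 1)) k Γ (∀ i : I, Y.V i) := by
  induction c with
  | zero =>
    intro Γ _ Y I hI h n k _ hk
    have hI' : I = ∅ := Finset.card_eq_zero.1 hI
    subst hI'
    have hE : IsEmpty (↥(∅ : Finset (Fin Y.m))) := ⟨fun i => absurd i.2 (Finset.notMem_empty _)⟩
    exact PP.point (fun i => hE.elim i)
  | succ c ih =>
    intro Γ _ Y I hI h n k _ hk
    obtain ⟨j, hj⟩ : I.Nonempty := Finset.card_pos.1 (by omega)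
    have h1 := one hU hB hK hR Y j (fun v w hvw => h j hj v w hvw) n k hk
    refine PP.step (eqv hj) (fun g x => rfl) h1 fun v => ?_
    have h2 := ih (MulAction.stabilizer Γ v) (ER71.res Y (MulAction.stabilizer Γ v)) (I.erase j)
      (by rw [Finset.card_erase_of_mem hj, hI]; rfl)
      (ER71.edgeR_res (Finset.erase_subset j I) h _) n k hk
    exact PP.congr (fun g x => rfl) h2

end X60

/-- **Row ITX.** -/
theorem itx (hU : UnivStatement.{u}) (hB : BasStatement.{u}) (hD : DsumStatement.{u})
    (hK : KneStatement.{u}) (hR : RelStatement.{u}) : ItxStatement.{u} := by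
  intro Γ _ Y I h n k _ hk rep hrep
  obtain ⟨h1, h2⟩ := X60.all hU hB hK hR I.card Γ Y I rfl h n k hk
  exact hD (n + 1) k Γ (∀ i : I, Y.V i) (fun _ _ => False) h1 h2 (fun _ _ h => h.elim) rep hrep

end Pool.Agent.NegK.NT.EX
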